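import Pool.Agent.X305.TQ.Lin0
import Pool.Agent.X305.TP.Defs

/-!
# The Tate conjecture at one prime. Definitions
-/

set_option autoImplicit false

open CategoryTheory AlgebraicGeometry

universe u v w

namespace Pool.Agent.X305.TQ

open Pool.Agent.H914 VarClass Obj WeilCohomology Pool.Agent.X305.HA Pool.Agent.X305.PI
  Pool.Agent.X305.TP

variable {k : Type u} [Field k] {𝒱 : VarClass k} {ops : CycleOps 𝒱}
  (W : WeilCohomology.{u, v} ops) (X : 𝒱.Obj) (D : X.Cycles) (n g : ℕ) (f : X ⟶ X) (q : ℕ)

/-- The operator `f^*` on the cohomology of `X`. -/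
def pull : W.H X →ₗ[W.K] W.H X := (W.map f).toLinearMap

/-- The operators induced by the algebraic correspondences of degree `0`. -/
def corrs : Set (W.H X →ₗ[W.K] W.H X) := {c | ∃ A, (X.prod X).IsCyc X.dim A ∧ corrOf W X A = c}

/-- The operator `T` is a linear combination of algebraic correspondences of degree `0`. -/
def IsAlgOp (T : W.H X →ₗ[W.K] W.H X) : Prop := IsCombination (corrs W X) T

/-- The eigenvalue `q ^ n` of `f^*` on `H^(2 n) (X)` is semisimple: the generalised eigenspace is the
eigenspace. -/
def FrobSemisimple : Prop := SemisimpleAt (pull W X f) ((q ^ n : ℕ) : W.K) (W.gr X (2 * n))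

/-- The Tate conjecture for `X` in codimension `n`: the eigenspace of `f^*` on `H^(2 n) (X)` for
`q ^ n` is spanned by classes of cycles. -/
def FrobTate : Prop :=
  EigenIn (pull W X f) ((q ^ n : ℕ) : W.K) (W.gr X (2 * n)) (algSpan W X n)

/-- The multiplicity of the eigenvalue `q ^ n` of `f^*` on `H^(2 n) (X)`. -/
noncomputable def frobMult : ℕ := multIn (pull W X f) ((q ^ n : ℕ) : W.K) (W.gr X (2 * n))

/-- The operator `f^*` multiplies the classes of the cycles of codimension `n` by `q ^ n`. -/
def ScalesCycles : Prop := ∀ z, X.IsCyc n z → Scales (W.map f) (q ^ n : ℕ) (W.cl X z)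

/-- Cycles of codimension `n` on `X` which are numerically equivalent to zero are homologically
equivalent to zero. -/
def NumEqHom : Prop := ∀ z, X.IsCyc n z → NumZero ops X n z → W.cl X z = 0

variable {ι : Type w} [Fintype ι] (e : ι → W.H X →ₗ[W.K] W.H X) (bar : ι → ι)

/-- The operators `e i` are linear combinations of algebraic correspondences; on `H^(2 n) (X)` they
are orthogonal projectors with sum `1` which commute with `f^*`, and the adjoint of `e i` for the
form `tr (x ξ ^ g y)` is `e (bar i)`. -/
structure AlgDecomp : Prop where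
  alg : ∀ i, IsAlgOp W X (e i)
  decomp : IsDecomp (traceForm (W.tr X) (W.cl X D) g) (pull W X f) (W.gr X (2 * n)) e bar

/-- In the `i`-part of `H^(2 n) (X)` the multiplicity of the eigenvalue `q ^ n` of `f^*` exceeds the
rank of the pairing on the algebraic classes in the `i`-part and the `bar i`-part by at most `2`
if `bar i = i`, and by at most `1` otherwise. -/
def SmallDefectsAt : Prop :=
  SmallDefects (traceForm (W.tr X) (W.cl X D) g) (pull W X f) ((q ^ n : ℕ) : W.K)
    (W.gr X (2 * n)) (algSpan W X n) e bar

end Pool.Agent.X305.TQ
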