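import Pool.Agent.X305.TQ.Lin
import Pool.Agent.X305.TQ.Defs
import Pool.Agent.X305.TP.Geo

/-!
# The Tate conjecture at one prime and at all primes
-/

set_option autoImplicit false

open CategoryTheory AlgebraicGeometry

universe u v v' w

namespace Pool.Agent.X305.TQ

open Pool.Agent.H914 VarClass Obj WeilCohomology Pool.Agent.X305.HA Pool.Agent.X305.PI
  Pool.Agent.TH720.LB Pool.Agent.X305.TP Pool.Agent.X305.PE

variable {k : Type u} [Field k] {𝒱 : VarClass k} {ops : CycleOps 𝒱}
  {W : WeilCohomology.{u, v} ops} {X : 𝒱.Obj} {D : X.Cycles} {n g : ℕ} {f : X ⟶ X} {q : ℕ}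

/-- the form as a bilinear form -/
noncomputable def bform (W : WeilCohomology.{u, v} ops) (X : 𝒱.Obj) (D : X.Cycles) (g : ℕ) :
    LinearMap.BilinForm W.K (W.H X) := hfrm W X D 0 g

lemma bform_apply (x y : W.H X) : bform W X D g x y = traceForm (W.tr X) (W.cl X D) g x y := by
  rw [bform, hfrm_apply, pow_zero, one_mul]
  rfl

lemma bform_hfrm (x y : W.H X) : hfrm W X D n g x y = (-1) ^ n * bform W X D g x y := by
  rw [bform_apply]
  rfl

lemma bform_eq : (fun x y => bform W X D g x y) = traceForm (W.tr X) (W.cl X D) g := by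
  funext x y
  exact bform_apply x y

lemma bform_symm {x y : W.H X} (hx : x ∈ W.gr X (2 * n)) (hy : y ∈ W.gr X (2 * n)) :
    bform W X D g x y = bform W X D g y x := by
  have h1 := hfrm_symm (D := D) (g := g) hx hy
  rw [bform_hfrm, bform_hfrm] at h1
  exact mul_left_cancel₀ (pow_ne_zero _ (by norm_num)) h1

lemma bform_nondeg (hd : 2 * n + g = X.dim) (hHL : HardLefschetz W X D) {x : W.H X}
    (hx : x ∈ W.gr X (2 * n)) (h : ∀ y ∈ W.gr X (2 * n), bform W X D g x y = 0) : x = 0 := by
  refine nondeg_lef hd hHL hx fun y hy => ?_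
  rw [bform_hfrm, h y hy, mul_zero]

lemma bform_scale (hd : 2 * n + g = X.dim) (hq : 0 < q) (hf : ActsAsFrobenius W X D f q n)
    (x y : W.H X) : bform W X D g (pull W X f x) (pull W X f y) =
      ((q ^ n : ℕ) : W.K) ^ 2 * bform W X D g x y := by
  have hq0 : (q : W.K) ≠ 0 := by exact_mod_cast hq.ne'
  have h1 := hf.tr_map (x * (W.cl X D ^ g * y))
  have h0 : W.map f (W.cl X D) = (q : W.K) • W.cl X D := hf.map_div
  rw [map_mul (W.map f), map_mul (W.map f), map_pow (W.map f), h0, _root_.smul_pow,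
    smul_mul_assoc, mul_smul_comm, map_smul, smul_eq_mul, ← hd, Nat.cast_pow] at h1
  have h2 : (q : W.K) ^ g ≠ 0 := pow_ne_zero _ hq0
  rw [bform_apply, bform_apply]
  apply mul_left_cancel₀ h2
  show (q : W.K) ^ g * W.tr X (W.map f x * (W.cl X D ^ g * W.map f y)) =
    (q : W.K) ^ g * (((q ^ n : ℕ) : W.K) ^ 2 * W.tr X (x * (W.cl X D ^ g * y)))
  rw [h1]
  push_cast
  ring

lemma pull_gr {x : W.H X} (hx : x ∈ W.gr X (2 * n)) : pull W X f x ∈ W.gr X (2 * n) :=
  W.map_mem f hx

lemma algOp_gr {T : W.H X →ₗ[W.K] W.H X} (hT : IsAlgOp W X T) {x : W.H X}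
    (hx : x ∈ W.gr X (2 * n)) : T x ∈ W.gr X (2 * n) := by
  refine Submodule.span_induction (p := fun T _ => T x ∈ W.gr X (2 * n)) ?_ ?_ ?_ ?_ hT
  · rintro _ ⟨A, hA, rfl⟩
    exact corr_gr hA hx
  · exact Submodule.zero_mem _
  · intro S T _ _ h1 h2
    exact Submodule.add_mem _ h1 h2
  · intro a T _ h1
    exact Submodule.smul_mem _ a h1

lemma alg_le : algSpan W X n ≤ W.gr X (2 * n) := by
  rw [algSpan, Submodule.span_le]
  rintro _ ⟨z, hz, rfl⟩
  exact W.cl_mem hz

lemma alg_eig (hf : ∀ z, X.IsCyc n z → Scales (W.map f) (q ^ n : ℕ) (W.cl X z)) :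
    ∀ x ∈ algSpan W X n, pull W X f x = ((q ^ n : ℕ) : W.K) • x := by
  intro x hx
  refine Submodule.span_induction (p := fun x _ => pull W X f x = ((q ^ n : ℕ) : W.K) • x)
    ?_ ?_ ?_ ?_ hx
  · rintro _ ⟨z, hz, rfl⟩
    exact hf z hz
  · rw [map_zero, smul_zero]
  · intro x y _ _ h1 h2
    rw [map_add, h1, h2, smul_add]
  · intro a x _ h1
    rw [map_smul, h1, smul_comm]

/-- **Semisimplicity.** -/
theorem semisimple (hd : 2 * n + g = X.dim) (hHL : HardLefschetz W X D) (hq : 0 < q)
    (hf : ActsAsFrobenius W X D f q n) {ι : Type w} [Fintype ι]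
    {e : ι → W.H X →ₗ[W.K] W.H X} {bar : ι → ι} (he : AlgDecomp W X D n g f e bar)
    (hs : SmallDefectsAt W X D n g f q e bar) : FrobSemisimple W X n f q := by
  have ha : ((q ^ n : ℕ) : W.K) ≠ 0 := by
    rw [Nat.cast_pow]
    exact pow_ne_zero _ (by exact_mod_cast hq.ne')
  refine semisimple_of_defect (B := bform W X D g) (N := algSpan W X n) (e := e) (bar := bar)
    (fun x hx => pull_gr hx) ha (fun x _ y _ => bform_scale hd hq hf x y)
    (fun x hx y hy => bform_symm hx hy) (fun x hx h => bform_nondeg hd hHL hx h) alg_le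
    (alg_eig hf.map_cycle) ?_ (fun i x hx => algOp_gr (he.alg i) hx) ?_
  · rw [bform_eq]
    exact he.decomp
  · rw [bform_eq]
    exact hs

/-- the form on classes of cycles -/
lemma bform_cl (hD : X.IsCyc 1 D) (hd : 2 * n + g = X.dim) {z w : X.Cycles} (hz : X.IsCyc n z)
    (hw : X.IsCyc n w) : bform W X D g (W.cl X z) (W.cl X w) =
      (X.V.degCycle (ops.mul z (divPow ops D g w)) : W.K) := by
  rw [bform_apply]
  show W.tr X (W.cl X z * (W.cl X D ^ g * W.cl X w)) = _
  rw [← cl_divPow', ← W.cl_mul, W.tr_cl]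
  rw [← hd, show 2 * n + g = n + (n + g) by ring]
  exact ops.mul_mem hz (divPow_mem hD g hw)

/-- **Transfer to another prime.** -/
theorem transfer (hD : X.IsCyc 1 D) (hd : 2 * n + g = X.dim) (hHL : HardLefschetz W X D)
    (hq : 0 < q) (hf : ActsAsFrobenius W X D f q n) (hss : FrobSemisimple W X n f q)
    (hT : FrobTate W X n f q) (W' : WeilCohomology.{u, v'} ops)
    (hf' : ∀ z, X.IsCyc n z → Scales (W'.map f) (q ^ n : ℕ) (W'.cl X z))
    (hdim : frobMult W' X n f q = frobMult W X n f q) :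
    FrobTate W' X n f q ∧ FrobSemisimple W' X n f q ∧ NumEqHom W' X n := by
  classical
  have ha : ((q ^ n : ℕ) : W.K) ≠ 0 := by
    rw [Nat.cast_pow]
    exact pow_ne_zero _ (by exact_mod_cast hq.ne')
  -- the generalised eigenspace is the span of the algebraic classes
  have hP : genIn (pull W X f) ((q ^ n : ℕ) : W.K) (W.gr X (2 * n)) = algSpan W X n := by
    apply le_antisymm
    · intro x hx
      exact hT x (mem_genIn.1 hx).1 (hss x hx)
    · intro x hx
      refine mem_genIn.2 ⟨alg_le hx, 1, ?_⟩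
      rw [pow_one, LinearMap.sub_apply, LinearMap.smul_apply, Module.End.one_apply,
        alg_eig hf.map_cycle x hx, sub_self]
  have hnd : ∀ x ∈ algSpan W X n, (∀ y ∈ algSpan W X n, bform W X D g x y = 0) → x = 0 := by
    intro x hx h0
    by_contra hx0
    obtain ⟨y, hy, hxy⟩ : ∃ y ∈ W.gr X (2 * n), bform W X D g x y ≠ 0 := by
      by_contra hcon
      push Not at hcon
      exact hx0 (bform_nondeg hd hHL (alg_le hx) hcon)
    rw [← hP] at hx
    obtain ⟨y', hy', h1⟩ := exists_pair (fun x hx => pull_gr hx) ha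
      (fun x _ y _ => bform_scale hd hq hf x y) hx hy hxy
    rw [hP] at hy'
    exact h1 (h0 y' hy')
  -- a basis of cycles
  obtain ⟨b, hbS, hbspan, hbli⟩ := exists_linearIndependent W.K (algClasses W X n)
  have hbfin : b.Finite := hbli.setFinite
  have hbf : Fintype b := hbfin.fintype
  have hz : ∀ i : b, ∃ z, X.IsCyc n z ∧ W.cl X z = i := fun i => hbS i.2
  choose z hzc hzcl using hz
  set G : Matrix b b ℚ := Matrix.of fun i j =>
    X.V.degCycle (ops.mul (z i) (divPow ops D g (z j))) with hG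
  have hli : LinearIndependent W.K fun i => W.cl X (z i) := by
    have h1 : (fun i => W.cl X (z i)) = ((↑) : b → W.H X) := funext hzcl
    rw [h1]
    exact hbli
  have hGdet : G.det ≠ 0 := by
    intro h0
    have h1 : (G.map (Rat.castHom W.K)).det = 0 := by
      have h2 := RingHom.map_det (Rat.castHom W.K) G
      rw [h0, map_zero] at h2
      exact h2.symm
    obtain ⟨a, ha0, ha1⟩ := Matrix.exists_mulVec_eq_zero_iff.2 h1
    have h2 : ∑ j, a j • W.cl X (z j) = 0 := by
      have hmem : ∑ j, a j • W.cl X (z j) ∈ algSpan W X n :=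
        Submodule.sum_mem _ fun j _ => Submodule.smul_mem _ _
          (Submodule.subset_span ⟨z j, hzc j, rfl⟩)
      apply hnd _ hmem
      intro y hy
      rw [bform_symm (alg_le hmem) (alg_le hy)]
      have hy2 : y ∈ Submodule.span W.K (b : Set (W.H X)) := by
        rw [hbspan]
        exact hy
      refine Submodule.span_induction (p := fun y _ => bform W X D g y
        (∑ j, a j • W.cl X (z j)) = 0) ?_ ?_ ?_ ?_ hy2
      · intro y hyb
        have hyz : y = W.cl X (z ⟨y, hyb⟩) := (hzcl ⟨y, hyb⟩).symm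
        rw [hyz, map_sum]
        have h3 := congrFun ha1 ⟨y, hyb⟩
        rw [Matrix.mulVec, dotProduct, Pi.zero_apply] at h3
        refine Eq.trans ?_ h3
        refine Finset.sum_congr rfl fun j _ => ?_
        rw [map_smul, smul_eq_mul, bform_cl hD hd (hzc _) (hzc j), mul_comm]
        rfl
      · rw [map_zero, LinearMap.zero_apply]
      · intro x y _ _ h3 h4
        rw [map_add, LinearMap.add_apply, h3, h4, add_zero]
      · intro c x _ h3
        rw [map_smul, LinearMap.smul_apply, h3, smul_zero]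
    rw [Fintype.linearIndependent_iff] at hli
    exact ha0 (funext fun j => hli a h2 j)
  -- the other cohomology
  have hmv : ∀ (a : b → W'.K), (∀ i, ∑ j, a j * bform W' X D g (W'.cl X (z i)) (W'.cl X (z j)) = 0)
      → a = 0 := by
    intro a h1
    have hdet' : (G.map (Rat.castHom W'.K)).det ≠ 0 := by
      have h2 := RingHom.map_det (Rat.castHom W'.K) G
      intro h3
      apply hGdet
      have h4 : (Rat.castHom W'.K) G.det = 0 := h2.trans h3
      exact (map_eq_zero _).1 h4
    by_contra ha0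
    apply hdet'
    apply Matrix.exists_mulVec_eq_zero_iff.1
    refine ⟨a, ha0, ?_⟩
    funext i
    rw [Matrix.mulVec, dotProduct, Pi.zero_apply, ← h1 i]
    refine Finset.sum_congr rfl fun j _ => ?_
    rw [bform_cl hD hd (hzc i) (hzc j), mul_comm]
    rfl
  have hli' : LinearIndependent W'.K fun i => W'.cl X (z i) := by
    rw [Fintype.linearIndependent_iff]
    intro a h1 i
    have h2 : a = 0 := by
      apply hmv
      intro i
      have h3 := congrArg (bform W' X D g (W'.cl X (z i))) h1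
      rw [map_sum, map_zero] at h3
      rw [← h3]
      refine Finset.sum_congr rfl fun j _ => ?_
      rw [map_smul, smul_eq_mul]
    rw [h2]
    rfl
  set T : Submodule W'.K (W'.H X) := Submodule.span W'.K (Set.range fun i => W'.cl X (z i)) with hT'
  have hTalg : T ≤ algSpan W' X n := by
    rw [hT', Submodule.span_le]
    rintro _ ⟨i, rfl⟩
    exact Submodule.subset_span ⟨z i, hzc i, rfl⟩
  have halgP : algSpan W' X n ≤ genIn (pull W' X f) ((q ^ n : ℕ) : W'.K) (W'.gr X (2 * n)) := by
    intro x hx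
    refine mem_genIn.2 ⟨alg_le hx, 1, ?_⟩
    rw [pow_one, LinearMap.sub_apply, LinearMap.smul_apply, Module.End.one_apply,
      alg_eig hf' x hx, sub_self]
  have hTdim : Module.finrank W'.K T = Module.finrank W.K (algSpan W X n) := by
    rw [hT', finrank_span_eq_card hli', algSpan, ← hbspan, finrank_span_set_eq_card hbli,
      Set.toFinset_card]
  have hTP : T = genIn (pull W' X f) ((q ^ n : ℕ) : W'.K) (W'.gr X (2 * n)) := by
    refine Submodule.eq_of_le_of_finrank_le (hTalg.trans halgP) ?_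
    rw [hTdim, ← hP]
    exact hdim.le
  refine ⟨fun x hx hFx => ?_, fun x hx => ?_, fun y hy hnum => ?_⟩
  · apply hTalg
    rw [hTP]
    refine mem_genIn.2 ⟨hx, 1, ?_⟩
    rw [pow_one, LinearMap.sub_apply, LinearMap.smul_apply, Module.End.one_apply, hFx, sub_self]
  · rw [← hTP] at hx
    exact alg_eig hf' x (hTalg hx)
  · have h1 : W'.cl X y ∈ T := by
      rw [hTP]
      exact halgP (Submodule.subset_span ⟨y, hy, rfl⟩)
    rw [hT', Submodule.mem_span_range_iff_exists_fun] at h1
    obtain ⟨a, ha1⟩ := h1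
    have h2 : a = 0 := by
      apply hmv
      intro i
      have h3 : bform W' X D g (W'.cl X (z i)) (W'.cl X y) = 0 := by
        rw [bform_symm (W'.cl_mem (hzc i)) (W'.cl_mem hy), bform_cl hD hd hy (hzc i),
          hnum (n + g) _ (by omega) (divPow_mem hD g (hzc i)), Rat.cast_zero]
      rw [← ha1, map_sum] at h3
      rw [← h3]
      refine Finset.sum_congr rfl fun j _ => ?_
      rw [map_smul, smul_eq_mul]
    rw [← ha1, h2]
    exact Finset.sum_eq_zero fun j _ => zero_smul _ _

end Pool.Agent.X305.TQ
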