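import Pool.Agent.X305.TQ.Lin0

/-!
# Semisimplicity from small defects. Linear algebra
-/

set_option autoImplicit false

namespace Pool.Agent.X305.TQ

open Module

variable {K V : Type*} [Field K] [AddCommGroup V] [Module K V]

lemma mem_rangeIn {e : V →ₗ[K] V} {U : Submodule K V} {x : V} :
    x ∈ rangeIn e U ↔ x ∈ U ∧ e x = x := by
  rw [rangeIn, Submodule.mem_inf, LinearMap.mem_ker, LinearMap.sub_apply, LinearMap.id_apply,
    sub_eq_zero]

lemma mem_genIn {F : V →ₗ[K] V} {a : K} {U : Submodule K V} {x : V} :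
    x ∈ genIn F a U ↔ x ∈ U ∧ ∃ k : ℕ, ((F - a • (1 : Module.End K V)) ^ k) x = 0 := by
  rw [genIn, Submodule.mem_inf, Module.End.mem_maxGenEigenspace]

variable {B : LinearMap.BilinForm K V} {F : V →ₗ[K] V} {a : K} {U : Submodule K V}

/-- the operator `F - a` on `U` -/
lemma sub_mem (hFU : ∀ x ∈ U, F x ∈ U) {x : V} (hx : x ∈ U) (k : ℕ) :
    ((F - a • (1 : Module.End K V)) ^ k) x ∈ U := by
  induction k with
  | zero => exact hx
  | succ k ih =>
    rw [pow_succ', Module.End.mul_apply, LinearMap.sub_apply, LinearMap.smul_apply,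
      Module.End.one_apply]
    exact U.sub_mem (hFU _ ih) (U.smul_mem a ih)

/-- vectors in the generalised eigenspace are orthogonal to the image of the power -/
lemma orth_pow (hFU : ∀ x ∈ U, F x ∈ U) (ha : a ≠ 0)
    (hF : ∀ x ∈ U, ∀ y ∈ U, B (F x) (F y) = a ^ 2 * B x y) :
    ∀ (k : ℕ) (x y : V), x ∈ U → y ∈ U → ((F - a • (1 : Module.End K V)) ^ k) x = 0 → ∀ m, k ≤ m →
      B x (((F - a • (1 : Module.End K V)) ^ m) y) = 0 := by
  intro k
  induction k with
  | zero =>
    intro x y _ _ h0 m _
    rw [pow_zero, Module.End.one_apply] at h0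
    rw [h0, map_zero, LinearMap.zero_apply]
  | succ k ih =>
    intro x y hx hy h0 m hm
    obtain ⟨m, rfl⟩ : ∃ m', m = m' + 1 := ⟨m - 1, by omega⟩
    set u := F - a • (1 : Module.End K V) with hu
    have hcomm : ∀ (j : ℕ) (z : V), F ((u ^ j) z) = (u ^ j) (F z) := by
      intro j z
      have h1 : F * u ^ j = u ^ j * F := by
        have h2 : Commute F u := by
          rw [hu]
          exact (Commute.refl F).sub_right ((Commute.one_right F).smul_right a)
        exact (h2.pow_right j).eq
      exact congrArg (fun G : Module.End K V => G z) h1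
    have hux : u x ∈ U := by
      have := sub_mem (a := a) hFU hx 1
      rwa [pow_one] at this
    have h1 := ih (u x) (F y) hux (hFU y hy) (by
      rw [pow_succ, Module.End.mul_apply] at h0
      exact h0) m (by omega)
    have hz : (u ^ m) y ∈ U := sub_mem hFU hy m
    rw [← hcomm] at h1
    have h2 : B (u x) (F ((u ^ m) y)) = a ^ 2 * B x ((u ^ m) y) - a * B x (F ((u ^ m) y)) := by
      rw [hu, LinearMap.sub_apply, LinearMap.smul_apply, Module.End.one_apply, map_sub,
        LinearMap.sub_apply, map_smul, LinearMap.smul_apply, smul_eq_mul, ← hu, hF x hx _ hz]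
    rw [h1] at h2
    have h3 : a * B x (u ((u ^ m) y)) = 0 := by
      have h4 : u ((u ^ m) y) = F ((u ^ m) y) - a • (u ^ m) y := by
        conv_lhs => rw [hu, LinearMap.sub_apply, LinearMap.smul_apply, Module.End.one_apply, ← hu]
      rw [h4, map_sub, map_smul, smul_eq_mul]
      linear_combination h2
    rw [pow_succ', Module.End.mul_apply]
    exact (mul_eq_zero.1 h3).resolve_left ha

variable [FiniteDimensional K V]

/-- Fitting decomposition in the invariant subspace `U` -/
lemma fitting (hFU : ∀ x ∈ U, F x ∈ U) (k : ℕ) {y : V} (hy : y ∈ U) :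
    ∃ y₁ ∈ genIn F a U, ∃ y₂ ∈ U, ∃ m, k ≤ m ∧
      y = y₁ + ((F - a • (1 : Module.End K V)) ^ m) y₂ := by
  set u := F - a • (1 : Module.End K V) with hu
  have huU : ∀ x ∈ U, u x ∈ U := fun x hx => by
    have := sub_mem (a := a) hFU hx 1
    rwa [pow_one] at this
  set G : Module.End K U := u.restrict huU with hG
  have hGpow : ∀ (j : ℕ) (z : U), (((G ^ j) z : U) : V) = (u ^ j) z := by
    intro j z
    induction j with
    | zero => rfl
    | succ j ih =>
      rw [pow_succ', Module.End.mul_apply, pow_succ', Module.End.mul_apply, ← ih]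
      rfl
  obtain ⟨m, hm⟩ := Filter.eventually_atTop.1
    (LinearMap.eventually_isCompl_ker_pow_range_pow G)
  have h1 := hm (max m k) (le_max_left _ _)
  have h2 : (⟨y, hy⟩ : U) ∈ LinearMap.ker (G ^ max m k) ⊔ LinearMap.range (G ^ max m k) := by
    rw [h1.sup_eq_top]
    exact Submodule.mem_top
  obtain ⟨y₁, hy₁, y₂', ⟨y₂, rfl⟩, h3⟩ := Submodule.mem_sup.1 h2
  refine ⟨y₁, mem_genIn.2 ⟨y₁.2, max m k, ?_⟩, y₂, y₂.2, max m k, le_max_right _ _, ?_⟩
  · rw [← hGpow, LinearMap.mem_ker.1 hy₁]
    rfl
  · rw [← hGpow]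
    exact (congrArg Subtype.val h3).symm

/-- an element of the generalised eigenspace pairs nontrivially with the generalised eigenspace -/
lemma exists_pair (hFU : ∀ x ∈ U, F x ∈ U) (ha : a ≠ 0)
    (hF : ∀ x ∈ U, ∀ y ∈ U, B (F x) (F y) = a ^ 2 * B x y) {x : V} (hx : x ∈ genIn F a U)
    {y : V} (hy : y ∈ U) (hxy : B x y ≠ 0) : ∃ y' ∈ genIn F a U, B x y' ≠ 0 := by
  obtain ⟨hxU, k, hk⟩ := mem_genIn.1 hx
  obtain ⟨y₁, hy₁, y₂, hy₂, m, hm, h1⟩ := fitting (a := a) hFU k hy
  refine ⟨y₁, hy₁, fun h0 => hxy ?_⟩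
  rw [h1, map_add, h0, zero_add]
  exact orth_pow hFU ha hF k x y₂ hxU hy₂ hk m hm

/-- **Semisimplicity from small defects.** -/
theorem semisimple_of_defect [CharZero K] {ι : Type*} [Fintype ι] {N : Submodule K V}
    {e : ι → V →ₗ[K] V} {bar : ι → ι} (hFU : ∀ x ∈ U, F x ∈ U) (ha : a ≠ 0)
    (hF : ∀ x ∈ U, ∀ y ∈ U, B (F x) (F y) = a ^ 2 * B x y)
    (hsymm : ∀ x ∈ U, ∀ y ∈ U, B x y = B y x)
    (hnd : ∀ x ∈ U, (∀ y ∈ U, B x y = 0) → x = 0) (hNU : N ≤ U) (hFN : ∀ x ∈ N, F x = a • x)
    (hP : IsDecomp (fun x y => B x y) F U e bar) (hPU : ∀ i, ∀ x ∈ U, e i x ∈ U)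
    (hdef : SmallDefects (fun x y => B x y) F a U N e bar) :
    SemisimpleAt F a U := by
  classical
  set u := F - a • (1 : Module.End K V) with hu
  have hu0 : ∀ x, u x = 0 ↔ F x = a • x := by
    intro x
    rw [hu, LinearMap.sub_apply, LinearMap.smul_apply, Module.End.one_apply, sub_eq_zero]
  -- the commutation of the projectors with `u`
  have hcomm : ∀ i (k : ℕ) x, x ∈ U → (u ^ k) (e i x) = e i ((u ^ k) x) := by
    intro i k x hx
    induction k with
    | zero => rfl
    | succ k ih =>
      have hz : (u ^ k) x ∈ U := sub_mem hFU hx k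
      rw [pow_succ', Module.End.mul_apply, Module.End.mul_apply, ih, hu, LinearMap.sub_apply,
        LinearMap.sub_apply, LinearMap.smul_apply, LinearMap.smul_apply, Module.End.one_apply,
        Module.End.one_apply, ← hu, hP.comm i _ hz, map_sub, map_smul]
  have key : ∀ i, ∀ x ∈ genIn F a (rangeIn (e i) U), F x = a • x := by
    intro i x hx
    by_contra hcon
    obtain ⟨hxr, k₀, hk₀⟩ := mem_genIn.1 hx
    obtain ⟨hxU, hxe⟩ := mem_rangeIn.1 hxr
    -- the last nonzero power
    have hex : ∃ k, (u ^ k) x = 0 := ⟨k₀, hk₀⟩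
    obtain ⟨hk0, hkmin⟩ := And.intro (Nat.find_spec hex) (fun m hm => Nat.find_min hex (m := m) hm)
    set k := Nat.find hex with hk
    have hk2 : 2 ≤ k := by
      by_contra hlt
      have h3 : k = 0 ∨ k = 1 := by omega
      rcases h3 with h3 | h3
      · rw [h3, pow_zero, Module.End.one_apply] at hk0
        apply hcon
        rw [hk0, map_zero, smul_zero]
      · rw [h3, pow_one, hu0] at hk0
        exact hcon hk0
    set w := (u ^ (k - 2)) x with hw
    set v := u w with hv
    have hvk : v = (u ^ (k - 1)) x := by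
      rw [hv, hw, ← Module.End.mul_apply, ← pow_succ', show k - 2 + 1 = k - 1 by omega]
    have hv0 : v ≠ 0 := by
      rw [hvk]
      exact hkmin _ (by omega)
    have huv : u v = 0 := by
      rw [hvk, ← Module.End.mul_apply, ← pow_succ', show k - 1 + 1 = k by omega]
      exact hk0
    have hwU : w ∈ U := sub_mem hFU hxU _
    have hvU : v ∈ U := by
      rw [hvk]
      exact sub_mem hFU hxU _
    have hwe : e i w = w := by
      rw [hw, ← hcomm i _ x hxU, hxe]
    have hve : e i v = v := by
      rw [hvk, ← hcomm i _ x hxU, hxe]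
    have hwG : w ∈ genIn F a (rangeIn (e i) U) := by
      refine mem_genIn.2 ⟨mem_rangeIn.2 ⟨hwU, hwe⟩, 2, ?_⟩
      rw [← hu, sq, Module.End.mul_apply]
      exact huv
    have hvG : v ∈ genIn F a (rangeIn (e i) U) := by
      refine mem_genIn.2 ⟨mem_rangeIn.2 ⟨hvU, hve⟩, 1, ?_⟩
      rw [← hu, pow_one]
      exact huv
    -- `v` is orthogonal to all eigenvectors
    have hFw : F w = a • w + v := by
      rw [hv, hu, LinearMap.sub_apply, LinearMap.smul_apply, Module.End.one_apply]
      abel
    have horth : ∀ y ∈ U, F y = a • y → B v y = 0 := by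
      intro y hy hFy
      have h1 := hF w hwU y hy
      rw [hFw, hFy, map_add, LinearMap.add_apply, map_smul, map_smul, map_smul,
        LinearMap.smul_apply, smul_eq_mul, smul_eq_mul, smul_eq_mul] at h1
      have h2 : a * B v y = 0 := by linear_combination h1
      exact (mul_eq_zero.1 h2).resolve_left ha
    obtain ⟨M, M', hM, hM', hpair, hdim⟩ : DefectAtMost (fun x y => B x y) F a U N e bar i
        (if bar i = i then 2 else 1) := by
      by_cases hbar : bar i = i
      · rw [if_pos hbar]
        exact (hdef i).1 hbar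
      · rw [if_neg hbar]
        exact (hdef i).2 hbar
    have hMN : ∀ x ∈ M, x ∈ N := fun x hx => (mem_rangeIn.1 (hM hx)).1
    have hMU : ∀ x ∈ M, F x = a • x := fun x hx => hFN x (hMN x hx)
    have hli : LinearIndependent K ![v, w] := by
      rw [LinearIndependent.pair_iff]
      intro r s hrs
      have h3 := congrArg u hrs
      rw [map_add, map_smul, map_smul, huv, smul_zero, zero_add, map_zero, ← hv] at h3
      have hs : s = 0 := (smul_eq_zero.1 h3).resolve_right hv0
      rw [hs, zero_smul, add_zero] at hrs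
      exact ⟨(smul_eq_zero.1 hrs).resolve_right hv0, hs⟩
    set T : Submodule K V := Submodule.span K (Set.range ![v, w]) with hT
    have hTdim : finrank K T = 2 := by rw [hT, finrank_span_eq_card hli, Fintype.card_fin]
    have hTmem : ∀ y ∈ T, ∃ r s : K, r • v + s • w = y := by
      intro y hy
      rw [hT, Matrix.range_cons, Matrix.range_cons, Matrix.range_empty, Set.union_empty,
        Set.singleton_union, Submodule.mem_span_pair] at hy
      exact hy
    have hdis : Disjoint M T := by
      rw [Submodule.disjoint_def]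
      intro y hyM hyT
      obtain ⟨r, s, hrs⟩ := hTmem y hyT
      have h3 : u y = 0 := (hu0 y).2 (hMU y hyM)
      rw [← hrs, map_add, map_smul, map_smul, huv, smul_zero, zero_add, ← hv] at h3
      have hs : s = 0 := (smul_eq_zero.1 h3).resolve_right hv0
      rw [hs, zero_smul, add_zero] at hrs
      apply hpair y hyM
      intro y' hy'
      have hy'N := (mem_rangeIn.1 (hM' hy')).1
      rw [← hrs]
      show B (r • v) y' = 0
      rw [map_smul, LinearMap.smul_apply, horth y' (hNU hy'N) (hFN y' hy'N), smul_zero]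
    have hsup : finrank K (M ⊔ T : Submodule K V) = finrank K M + 2 := by
      have h3 := Submodule.finrank_sup_add_finrank_inf_eq M T
      rw [disjoint_iff.1 hdis, finrank_bot, add_zero, hTdim] at h3
      exact h3
    have hsupG : M ⊔ T ≤ genIn F a (rangeIn (e i) U) := by
      refine sup_le (fun y hy => ?_) (fun y hy => ?_)
      · refine mem_genIn.2 ⟨mem_rangeIn.2 ⟨hNU (hMN y hy), (mem_rangeIn.1 (hM hy)).2⟩, 1, ?_⟩
        rw [← hu, pow_one]
        exact (hu0 y).2 (hMU y hy)
      · obtain ⟨r, s, rfl⟩ := hTmem y hy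
        exact Submodule.add_mem _ (Submodule.smul_mem _ _ hvG) (Submodule.smul_mem _ _ hwG)
    by_cases hbar : bar i = i
    · rw [if_pos hbar] at hdim
      have heq : M ⊔ T = genIn F a (rangeIn (e i) U) :=
        Submodule.eq_of_le_of_finrank_le hsupG (by rw [hsup]; exact hdim)
      -- `v` is orthogonal to `M ⊔ T`
      have hvv : B v v = 0 := horth v hvU ((hu0 v).1 huv)
      have hvw : B v w = 0 := by
        have h1 := hF w hwU w hwU
        rw [hFw] at h1
        simp only [map_add, map_smul, LinearMap.add_apply, LinearMap.smul_apply, smul_eq_mul,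
          hvv, hsymm w hwU v hvU] at h1
        have h2 : (2 * a) * B v w = 0 := by linear_combination h1
        exact (mul_eq_zero.1 h2).resolve_left (mul_ne_zero (by norm_num) ha)
      have horth2 : ∀ y ∈ genIn F a (rangeIn (e i) U), B v y = 0 := by
        intro y hy
        rw [← heq] at hy
        obtain ⟨y₁, hy₁, y₂, hy₂, rfl⟩ := Submodule.mem_sup.1 hy
        obtain ⟨r, s, rfl⟩ := hTmem y₂ hy₂
        rw [map_add, map_add, map_smul, map_smul, hvv, hvw,
          horth y₁ (hNU (hMN y₁ hy₁)) (hMU y₁ hy₁), smul_zero, smul_zero, add_zero, add_zero]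
      obtain ⟨y, hyU, hy⟩ : ∃ y ∈ U, B v y ≠ 0 := by
        by_contra hcon2
        push Not at hcon2
        exact hv0 (hnd v hvU hcon2)
      have hy2 : B v (e i y) ≠ 0 := by
        have h1 := hP.adj i v hvU y hyU
        rw [hve, hbar] at h1
        rw [← h1]
        exact hy
      obtain ⟨y', hy', h4⟩ := exists_pair (B := B) (F := F) (a := a) (U := rangeIn (e i) U)
        (fun x hx => by
          obtain ⟨h5, h6⟩ := mem_rangeIn.1 hx
          refine mem_rangeIn.2 ⟨hFU x h5, ?_⟩
          rw [← hP.comm i x h5, h6]) ha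
        (fun x hx y hy => hF x (mem_rangeIn.1 hx).1 y (mem_rangeIn.1 hy).1) hvG
        (mem_rangeIn.2 ⟨hPU i y hyU, hP.idem i y hyU⟩) hy2
      exact h4 (horth2 y' hy')
    · rw [if_neg hbar] at hdim
      have h3 := Submodule.finrank_mono hsupG
      rw [hsup] at h3
      omega
  intro x hx
  obtain ⟨hxU, k, hk⟩ := mem_genIn.1 hx
  have h1 : ∀ i, F (e i x) = a • e i x := by
    intro i
    apply key i
    refine mem_genIn.2 ⟨mem_rangeIn.2 ⟨hPU i x hxU, hP.idem i x hxU⟩, k, ?_⟩
    rw [← hu, hcomm i k x hxU, hu, hk, map_zero]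
  rw [← hP.sum x hxU, map_sum, Finset.smul_sum]
  exact Finset.sum_congr rfl fun i _ => h1 i

end Pool.Agent.X305.TQ
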