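import Mathlib

/-!
# Generalised eigenspaces of isometries and systems of projectors: definitions
-/

set_option autoImplicit false

namespace Pool.Agent.X305.TQ

open Module

variable {K V : Type*} [Field K] [AddCommGroup V] [Module K V]

/-- The generalised eigenspace of the operator `F` in the subspace `U` for the eigenvalue `a`. -/
def genIn (F : V →ₗ[K] V) (a : K) (U : Submodule K V) : Submodule K V :=
  U ⊓ Module.End.maxGenEigenspace F a

/-- The dimension of the generalised eigenspace of `F` in `U` for the eigenvalue `a`. -/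
noncomputable def multIn (F : V →ₗ[K] V) (a : K) (U : Submodule K V) : ℕ :=
  finrank K (genIn F a U)

/-- The operator `T` is a linear combination of operators in the set `S`. -/
def IsCombination (S : Set (V →ₗ[K] V)) (T : V →ₗ[K] V) : Prop := T ∈ Submodule.span K S

/-- The operator `F` acts on its generalised eigenspace in `U` as multiplication by `a`. -/
def SemisimpleAt (F : V →ₗ[K] V) (a : K) (U : Submodule K V) : Prop :=
  ∀ x ∈ genIn F a U, F x = a • x

/-- The elements of `U` which `F` multiplies by `a` lie in `N`. -/
def EigenIn (F : V →ₗ[K] V) (a : K) (U N : Submodule K V) : Prop := ∀ x ∈ U, F x = a • x → x ∈ N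

/-- The image of the projector `e` in `U`. -/
def rangeIn (e : V →ₗ[K] V) (U : Submodule K V) : Submodule K V :=
  U ⊓ LinearMap.ker (e - LinearMap.id)

/-- The form `B` has no kernel on the left in `M × N`. -/
def NondegPair (B : V → V → K) (M N : Submodule K V) : Prop :=
  ∀ x ∈ M, (∀ y ∈ N, B x y = 0) → x = 0

/-- On the subspace `U` the operators `e i` are orthogonal projectors with sum `1`, which commute with
`F`; the adjoint of `e i` for the form `B` is `e (bar i)`. -/
structure IsDecomp {ι : Type*} [Fintype ι] (B : V → V → K) (F : V →ₗ[K] V) (U : Submodule K V)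
    (e : ι → V →ₗ[K] V) (bar : ι → ι) : Prop where
  idem : ∀ i, ∀ x ∈ U, e i (e i x) = e i x
  orth : ∀ i j, i ≠ j → ∀ x ∈ U, e i (e j x) = 0
  sum : ∀ x ∈ U, ∑ i, e i x = x
  comm : ∀ i, ∀ x ∈ U, F (e i x) = e i (F x)
  adj : ∀ i, ∀ x ∈ U, ∀ y ∈ U, B (e i x) y = B x (e (bar i) y)

/-- The defect at the index `i` is at most `d`: there are subspaces of the `i`-part and of the
`bar i`-part of `N`, with nondegenerate pairing, such that the first has codimension at most `d`
in the generalised eigenspace of `F` for the eigenvalue `a` in the `i`-part of `U`. -/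
def DefectAtMost {ι : Type*} (B : V → V → K) (F : V →ₗ[K] V) (a : K) (U N : Submodule K V)
    (e : ι → V →ₗ[K] V) (bar : ι → ι) (i : ι) (d : ℕ) : Prop :=
  ∃ M M' : Submodule K V, M ≤ rangeIn (e i) N ∧ M' ≤ rangeIn (e (bar i)) N ∧ NondegPair B M M' ∧
    finrank K (genIn F a (rangeIn (e i) U)) ≤ finrank K M + d

/-- The defects are at most `2` at the indices `i` with `bar i = i`, and at most `1` at the other
indices. -/
def SmallDefects {ι : Type*} (B : V → V → K) (F : V →ₗ[K] V) (a : K) (U N : Submodule K V)
    (e : ι → V →ₗ[K] V) (bar : ι → ι) : Prop :=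
  ∀ i, (bar i = i → DefectAtMost B F a U N e bar i 2) ∧
    (bar i ≠ i → DefectAtMost B F a U N e bar i 1)

end Pool.Agent.X305.TQ
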